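import Pool.Agent.PDM.Stmts

set_option autoImplicit false

open Finset

namespace Pool.Agent.PDM.H56

open Pool.Agent.PDN Pool.Agent.PDM

section

variable {V : Type} [Fintype V] (T : Tri V)

open Classical in
noncomputable def cc (v : V) : Bool := decide (T.deg v = 4)

theorem cc_t {v : V} : cc T v = true ↔ T.deg v = 4 := by
  unfold cc
  exact decide_eq_true_iff

theorem cc_f {v : V} : cc T v = false ↔ T.deg v ≠ 4 := by
  unfold cc
  exact decide_eq_false_iff_not

open Classical in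
noncomputable def FF : Finset (V × V × V) := univ.filter fun t => T.f t.1 t.2.1 t.2.2

theorem mem_FF {t : V × V × V} : t ∈ FF T ↔ T.f t.1 t.2.1 t.2.2 := by
  classical
  unfold FF
  rw [mem_filter]
  exact ⟨fun h => h.2, fun h => ⟨mem_univ _, h⟩⟩

noncomputable def nn (i j k : Bool) : ℕ :=
  ∑ t ∈ FF T, if cc T t.1 = i ∧ cc T t.2.1 = j ∧ cc T t.2.2 = k then 1 else 0

theorem nn_rot (i j k : Bool) : nn T i j k = nn T j k i := by
  unfold nn
  apply Finset.sum_nbij' (fun t => (t.2.1, t.2.2, t.1)) (fun t => (t.2.2, t.1, t.2.1))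
  · intro t ht
    rw [mem_FF] at ht ⊢
    exact T.cyc ht
  · intro t ht
    rw [mem_FF] at ht ⊢
    exact T.cyc (T.cyc ht)
  · intro t _
    rfl
  · intro t _
    rfl
  · intro t _
    by_cases h1 : cc T t.1 = i <;> by_cases h2 : cc T t.2.1 = j <;>
      by_cases h3 : cc T t.2.2 = k <;> simp [h1, h2, h3]

open Classical in
theorem deg_eq (u : V) : T.deg u = ((FF T).filter fun t => t.1 = u).card := by
  unfold Tri.deg
  rw [Nat.card_eq_fintype_card, Fintype.card_subtype]
  have h : (univ.filter fun v => T.Adj u v) = (((FF T).filter fun t => t.1 = u).image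
      fun t => t.2.1) := by
    ext v
    rw [mem_filter, mem_image]
    constructor
    · rintro ⟨_, w, hw⟩
      exact ⟨(u, v, w), mem_filter.2 ⟨(mem_FF T).2 hw, rfl⟩, rfl⟩
    · rintro ⟨t, ht, rfl⟩
      rw [mem_filter, mem_FF] at ht
      refine ⟨mem_univ _, t.2.2, ?_⟩
      rw [← ht.2]
      exact ht.1
  rw [h, card_image_of_injOn]
  intro t ht t' ht' he
  rw [mem_coe, mem_filter, mem_FF] at ht ht'
  obtain ⟨t1, t2, t3⟩ := t
  obtain ⟨s1, s2, s3⟩ := t'
  obtain ⟨h1, h2⟩ := ht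
  obtain ⟨h3, h4⟩ := ht'
  simp only at h1 h2 h3 h4 he
  subst h2
  subst h4
  subst he
  have h5 := T.uniq h1 h3
  subst h5
  rfl

theorem card_pairs (R : V → V → V → Prop) [DecidablePred fun t : V × V × V => R t.1 t.2.1 t.2.2] :
    Nat.card {p : V × V // ∃ w, T.f p.1 p.2 w ∧ R p.1 p.2 w} =
      ((FF T).filter fun t => R t.1 t.2.1 t.2.2).card := by
  classical
  rw [Nat.card_eq_fintype_card, Fintype.card_subtype]
  have h : (univ.filter fun p : V × V => ∃ w, T.f p.1 p.2 w ∧ R p.1 p.2 w) =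
      (((FF T).filter fun t => R t.1 t.2.1 t.2.2).image fun t => (t.1, t.2.1)) := by
    ext p
    rw [mem_filter, mem_image]
    constructor
    · rintro ⟨_, w, hw, hR⟩
      exact ⟨(p.1, p.2, w), mem_filter.2 ⟨(mem_FF T).2 hw, hR⟩, rfl⟩
    · rintro ⟨t, ht, rfl⟩
      rw [mem_filter, mem_FF] at ht
      exact ⟨mem_univ _, t.2.2, ht.1, ht.2⟩
  rw [h, card_image_of_injOn]
  intro t ht t' ht' he
  rw [mem_coe, mem_filter, mem_FF] at ht ht'
  obtain ⟨t1, t2, t3⟩ := t
  obtain ⟨s1, s2, s3⟩ := t'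
  obtain ⟨h1, _⟩ := ht
  obtain ⟨h3, _⟩ := ht'
  simp only [Prod.mk.injEq] at h1 h3 he
  obtain ⟨h2, h4⟩ := he
  subst h2
  subst h4
  have h5 := T.uniq h1 h3
  subst h5
  rfl

theorem ite_iff {p q : Prop} [Decidable p] [Decidable q] (h : p ↔ q) :
    (if p then 1 else 0 : ℕ) = if q then 1 else 0 := by
  by_cases hp : p
  · rw [if_pos hp, if_pos (h.1 hp)]
  · rw [if_neg hp, if_neg (fun hq => hp (h.2 hq))]

theorem card_darts : Nat.card {p : V × V // T.Adj p.1 p.2} = (FF T).card := by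
  classical
  have h := card_pairs T (fun _ _ _ => True)
  have h2 : ((FF T).filter fun _ => True) = FF T := Finset.filter_true_of_mem (fun _ _ => trivial)
  rw [h2] at h
  rw [← h]
  apply Nat.card_congr
  apply Equiv.subtypeEquivRight
  intro p
  unfold Tri.Adj
  constructor
  · rintro ⟨w, hw⟩
    exact ⟨w, hw, trivial⟩
  · rintro ⟨w, hw, _⟩
    exact ⟨w, hw⟩

open Classical in
/-- the sum over the faces, ordered by the first vertex -/
theorem fiber (g : V × V × V → ℕ) : ∑ v, ∑ t ∈ FF T with t.1 = v, g t = ∑ t ∈ FF T, g t :=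
  Finset.sum_fiberwise (FF T) (fun t => t.1) g

theorem tot : (FF T).card = nn T true true true + nn T true true false + nn T true false true +
    nn T true false false + nn T false true true + nn T false true false + nn T false false true +
    nn T false false false := by
  unfold nn
  rw [card_eq_sum_ones]
  simp only [← Finset.sum_add_distrib]
  apply Finset.sum_congr rfl
  intro t _
  cases cc T t.1 <;> cases cc T t.2.1 <;> cases cc T t.2.2 <;> simp

theorem sumc (i : Bool) : ∑ v, (if cc T v = i then T.deg v else 0) =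
    nn T i true true + nn T i true false + nn T i false true + nn T i false false := by
  classical
  have h1 : ∀ v, (if cc T v = i then T.deg v else 0) =
      ∑ t ∈ FF T with t.1 = v, if cc T t.1 = i then 1 else 0 := by
    intro v
    rw [deg_eq T v, card_eq_sum_ones]
    by_cases h : cc T v = i
    · rw [if_pos h]
      apply Finset.sum_congr rfl
      intro t ht
      rw [mem_filter] at ht
      rw [ht.2, if_pos h]
    · rw [if_neg h]
      symm
      apply Finset.sum_eq_zero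
      intro t ht
      rw [mem_filter] at ht
      rw [ht.2, if_neg h]
  rw [Finset.sum_congr rfl fun v _ => h1 v, fiber T (fun t => if cc T t.1 = i then 1 else 0)]
  unfold nn
  simp only [← Finset.sum_add_distrib]
  apply Finset.sum_congr rfl
  intro t _
  by_cases h : cc T t.1 = i
  · cases cc T t.2.1 <;> cases cc T t.2.2 <;> simp [h]
  · simp [h]

theorem sumA : ∑ v, (if cc T v = true then T.deg v else 0) =
    4 * ∑ v, (if cc T v = true then 1 else 0) := by
  rw [Finset.mul_sum]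
  apply Finset.sum_congr rfl
  intro v _
  by_cases h : cc T v = true
  · rw [if_pos h, if_pos h, (cc_t T).1 h]
    rfl
  · rw [if_neg h, if_neg h]
    rfl

theorem cardH : Nat.card {v // T.deg v ≠ 4} = ∑ v, (if cc T v = false then 1 else 0) := by
  classical
  rw [Nat.card_eq_fintype_card, Fintype.card_subtype, card_filter]
  apply Finset.sum_congr rfl
  intro v _
  by_cases h : cc T v = false
  · rw [if_pos h, if_pos ((cc_f T).1 h)]
  · rw [if_neg h, if_neg (fun h' => h ((cc_f T).2 h'))]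

theorem cardV : Nat.card V = ∑ v, (if cc T v = true then 1 else 0) +
    ∑ v, (if cc T v = false then 1 else 0) := by
  rw [← Finset.sum_add_distrib, Nat.card_eq_fintype_card, ← Finset.card_univ, card_eq_sum_ones]
  apply Finset.sum_congr rfl
  intro v _
  cases cc T v <;> simp

theorem cardP : Nat.card {p : V × V // ∃ w, T.f p.1 p.2 w ∧ T.deg p.1 ≠ 4 ∧ T.deg p.2 ≠ 4 ∧
    T.deg w ≠ 4} = nn T false false false := by
  classical
  rw [card_pairs T (fun x y z => T.deg x ≠ 4 ∧ T.deg y ≠ 4 ∧ T.deg z ≠ 4), card_filter]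
  unfold nn
  apply Finset.sum_congr rfl
  intro t _
  exact ite_iff (and_congr (cc_f T).symm (and_congr (cc_f T).symm (cc_f T).symm))

/-! ### the pairs -/

open Classical in
noncomputable def YY : Finset ((V × V) × (V × V)) := univ.filter fun q =>
  T.deg q.2.1 = 4 ∧ T.deg q.2.2 = 4 ∧ T.deg q.1.1 ≠ 4 ∧ T.deg q.1.2 ≠ 4 ∧
    T.f q.2.1 q.2.2 q.1.1 ∧ T.f q.2.2 q.2.1 q.1.2

theorem mem_YY {q : (V × V) × (V × V)} : q ∈ YY T ↔
    T.deg q.2.1 = 4 ∧ T.deg q.2.2 = 4 ∧ T.deg q.1.1 ≠ 4 ∧ T.deg q.1.2 ≠ 4 ∧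
    T.f q.2.1 q.2.2 q.1.1 ∧ T.f q.2.2 q.2.1 q.1.2 := by
  classical
  unfold YY
  rw [mem_filter]
  exact ⟨fun h => h.2, fun h => ⟨mem_univ _, h⟩⟩

open Classical in
noncomputable def mu (u w : V) : ℕ := ((YY T).filter fun q => q.1 = (u, w)).card

theorem mu_symm (u w : V) : mu T u w = mu T w u := by
  classical
  unfold mu
  apply Finset.card_nbij' (fun q => ((q.1.2, q.1.1), (q.2.2, q.2.1)))
    (fun q => ((q.1.2, q.1.1), (q.2.2, q.2.1)))
  · intro q hq
    simp only [coe_filter, Set.mem_ofPred_eq, mem_YY] at hq ⊢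
    obtain ⟨⟨h1, h2, h3, h4, h5, h6⟩, h7⟩ := hq
    exact ⟨⟨h2, h1, h4, h3, h6, h5⟩, by rw [h7]⟩
  · intro q hq
    simp only [coe_filter, Set.mem_ofPred_eq, mem_YY] at hq ⊢
    obtain ⟨⟨h1, h2, h3, h4, h5, h6⟩, h7⟩ := hq
    exact ⟨⟨h2, h1, h4, h3, h6, h5⟩, by rw [h7]⟩
  · intro q _
    rfl
  · intro q _
    rfl

theorem mu_pos {u w : V} (h : mu T u w ≠ 0) : ∃ a b, T.deg a = 4 ∧ T.deg b = 4 ∧ T.deg u ≠ 4 ∧
    T.deg w ≠ 4 ∧ T.f a b u ∧ T.f b a w := by
  classical
  unfold mu at h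
  obtain ⟨q, hq⟩ := Finset.card_pos.1 (Nat.pos_of_ne_zero h)
  rw [mem_filter, mem_YY] at hq
  obtain ⟨⟨h1, h2, h3, h4, h5, h6⟩, h7⟩ := hq
  rw [h7] at h3 h4 h5 h6
  exact ⟨q.2.1, q.2.2, h1, h2, h3, h4, h5, h6⟩

theorem mu_sum : ∑ u, ∑ w, mu T u w = (YY T).card := by
  classical
  rw [← Fintype.sum_prod_type']
  unfold mu
  exact (Finset.card_eq_sum_card_fiberwise (f := fun q : (V × V) × (V × V) => q.1)
    (s := YY T) (t := univ) (fun _ _ => mem_coe.2 (mem_univ _))).symm

theorem mu_row (u : V) : ∑ w, mu T u w ≤ T.deg u := by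
  classical
  have h1 : ∑ w, mu T u w = ((YY T).filter fun q => q.1.1 = u).card := by
    unfold mu
    rw [Finset.card_eq_sum_card_fiberwise (f := fun q : (V × V) × (V × V) => q.1.2)
      (s := (YY T).filter fun q => q.1.1 = u) (t := univ) (fun _ _ => mem_coe.2 (mem_univ _))]
    apply Finset.sum_congr rfl
    intro w _
    rw [filter_filter]
    congr 1
    apply Finset.filter_congr
    intro q _
    exact Prod.ext_iff
  rw [h1]
  have h2 : T.deg u = (univ.filter fun v => T.Adj u v).card := by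
    unfold Tri.deg
    rw [Nat.card_eq_fintype_card, Fintype.card_subtype]
  rw [h2]
  apply Finset.card_le_card_of_injOn (fun q => q.2.1)
  · intro q hq
    rw [mem_coe, mem_filter, mem_YY] at hq
    obtain ⟨⟨_, _, _, _, h5, _⟩, h7⟩ := hq
    rw [mem_coe, mem_filter]
    refine ⟨mem_univ _, q.2.2, ?_⟩
    rw [← h7]
    exact T.cyc (T.cyc h5)
  · intro q hq q' hq' he
    rw [mem_coe, mem_filter, mem_YY] at hq hq'
    obtain ⟨⟨_, _, _, _, h5, h6⟩, h7⟩ := hq
    obtain ⟨⟨_, _, _, _, g5, g6⟩, g7⟩ := hq'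
    have h8 := T.cyc (T.cyc h5)
    have g8 := T.cyc (T.cyc g5)
    have he' : q.2.1 = q'.2.1 := he
    rw [h7, he'] at h8
    rw [g7] at g8
    have h9 := T.uniq h8 g8
    rw [he', h9] at h6
    have h10 := T.uniq h6 g6
    exact Prod.ext (Prod.ext (h7.trans g7.symm) h10) (Prod.ext he' h9)

/-- `Q₂ ≤ ∑ μ + Q₃` -/
theorem q2_le : nn T true true false ≤ (YY T).card + nn T true true true := by
  classical
  have e1 : nn T true true false = ((FF T).filter fun t => T.deg t.1 = 4 ∧ T.deg t.2.1 = 4 ∧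
      T.deg t.2.2 ≠ 4).card := by
    rw [card_filter]
    unfold nn
    apply Finset.sum_congr rfl
    intro t _
    exact ite_iff (and_congr (cc_t T) (and_congr (cc_t T) (cc_f T)))
  have e2 : nn T true true true = ((FF T).filter fun t => T.deg t.1 = 4 ∧ T.deg t.2.1 = 4 ∧
      T.deg t.2.2 = 4).card := by
    rw [card_filter]
    unfold nn
    apply Finset.sum_congr rfl
    intro t _
    exact ite_iff (and_congr (cc_t T) (and_congr (cc_t T) (cc_t T)))
  rw [e1, e2, ← card_disjSum]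
  have hex : ∀ t : V × V × V, ∃ w, t ∈ (FF T).filter (fun t => T.deg t.1 = 4 ∧
      T.deg t.2.1 = 4 ∧ T.deg t.2.2 ≠ 4) → T.f t.2.1 t.1 w := by
    intro t
    by_cases ht : t ∈ (FF T).filter (fun t => T.deg t.1 = 4 ∧ T.deg t.2.1 = 4 ∧ T.deg t.2.2 ≠ 4)
    · have ht2 := ht
      rw [mem_filter, mem_FF] at ht2
      obtain ⟨w, hw⟩ := T.opp ht2.1
      exact ⟨w, fun _ => hw⟩
    · exact ⟨t.1, fun h => absurd h ht⟩
  choose g hg using hex
  apply Finset.card_le_card_of_injOn (fun t => if T.deg (g t) ≠ 4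
    then Sum.inl ((t.2.2, g t), (t.1, t.2.1)) else Sum.inr (t.2.1, t.1, g t))
  · intro t ht
    have hgt := hg t (mem_coe.1 ht)
    rw [mem_coe, mem_filter, mem_FF] at ht
    obtain ⟨h1, h2, h3, h4⟩ := ht
    rw [mem_coe]
    by_cases h : T.deg (g t) ≠ 4
    · simp only [h, ne_eq, not_false_eq_true, if_true]
      rw [inl_mem_disjSum, mem_YY]
      exact ⟨h2, h3, h4, h, h1, hgt⟩
    · simp only [h, if_false]
      rw [inr_mem_disjSum, mem_filter, mem_FF]
      exact ⟨hgt, h3, h2, not_not.1 h⟩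
  · intro t ht t' ht' he
    rw [mem_coe, mem_filter, mem_FF] at ht ht'
    obtain ⟨h1, h2, h3, h4⟩ := ht
    obtain ⟨g1, g2, g3, g4⟩ := ht'
    obtain ⟨t1, t2, t3⟩ := t
    obtain ⟨s1, s2, s3⟩ := t'
    simp only at he h1 g1
    by_cases k1 : T.deg (g (t1, t2, t3)) ≠ 4 <;> by_cases k2 : T.deg (g (s1, s2, s3)) ≠ 4
    · rw [if_pos k1, if_pos k2] at he
      have he2 := Sum.inl.inj he
      simp only [Prod.mk.injEq] at he2
      obtain ⟨⟨a1, _⟩, a3, a4⟩ := he2
      rw [a1, a3, a4]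
    · rw [if_pos k1, if_neg k2] at he
      exact absurd he Sum.inl_ne_inr
    · rw [if_neg k1, if_pos k2] at he
      exact absurd he Sum.inr_ne_inl
    · rw [if_neg k1, if_neg k2] at he
      have he2 := Sum.inr.inj he
      simp only [Prod.mk.injEq] at he2
      obtain ⟨a1, a2, _⟩ := he2
      subst a1
      subst a2
      rw [T.uniq h1 g1]

/-! ### the ends -/

/-- the pattern of an end -/
def Pat (a b u w p : V) : Prop := T.deg a = 4 ∧ T.deg b = 4 ∧ T.deg u ≠ 4 ∧ T.deg w ≠ 4 ∧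
  T.deg p ≠ 4 ∧ T.f a p u ∧ T.f a u b ∧ T.f a b w ∧ T.f a w p

open Classical in
noncomputable def EE : Finset V := univ.filter fun a => ∃ b u w p, Pat T a b u w p

theorem mem_EE {a : V} : a ∈ EE T ↔ ∃ b u w p, Pat T a b u w p := by
  classical
  unfold EE
  rw [mem_filter]
  exact ⟨fun h => h.2, fun h => ⟨mem_univ _, h⟩⟩

end

theorem pat_nb (hl : LnkStmt) {V : Type} [Fintype V] (T : Tri V) {a b u w p : V}
    (h : Pat T a b u w p) {v : V} (hv : T.Adj a v) (hd : T.deg v = 4) : v = b := by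
  obtain ⟨h1, h2, h3, h4, h5, h6, h7, h8, h9⟩ := h
  obtain ⟨n2, n3, n4, k1, k2, k3, k4, _, _, _, _, _, _, hn⟩ := hl V T a b h1 ⟨w, h8⟩
  have e1 := T.uniq k1 h8
  subst e1
  have e2 := T.uniq k2 h9
  subst e2
  have e3 := T.uniq k3 h6
  subst e3
  rcases (hn v).1 hv with h | h | h | h
  · exact h
  · rw [h] at hd
    exact absurd hd h4
  · rw [h] at hd
    exact absurd hd h5
  · rw [h] at hd
    exact absurd hd h3

theorem pat_uniq (hl : LnkStmt) {V : Type} [Fintype V] (T : Tri V) {a b u w p b' u' w' p' : V}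
    (h : Pat T a b u w p) (h' : Pat T a b' u' w' p') : (u, w) = (u', w') := by
  have hb : b' = b := pat_nb hl T h ⟨w', h'.2.2.2.2.2.2.2.1⟩ h'.2.1
  subst hb
  obtain ⟨_, _, _, _, _, _, h7, h8, _⟩ := h
  obtain ⟨_, _, _, _, _, _, g7, g8, _⟩ := h'
  have e1 := T.uniq h8 g8
  have e2 := T.uniq (T.cyc (T.cyc h7)) (T.cyc (T.cyc g7))
  rw [e1, e2]

theorem ord_le (hl : LnkStmt) (hc : CheStmt) {V : Type} [Fintype V] (T : Tri V)
    (hcon : T.graph.Connected) (h3 : 3 ≤ Nat.card {v // T.deg v ≠ 4}) :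
    Nat.card {p : V × V // mu T p.1 p.2 ≠ 0} ≤ (EE T).card := by
  classical
  have hex : ∀ p : {p : V × V // mu T p.1 p.2 ≠ 0}, ∃ a, ∃ b q, Pat T a b p.1.1 p.1.2 q := by
    rintro ⟨p, hp⟩
    obtain ⟨a, b, h1, h2, h4, h5, h6, h7⟩ := mu_pos T hp
    obtain ⟨a', b', q, k1, k2, k3, k4, k5, k6, k7⟩ := hc V T hcon h3 b a p.1 p.2 h2 h1 h4 h5 h6 h7
    exact ⟨a', b', q, k1, k2, h4, h5, k3, k4, k5, k6, k7⟩
  choose g b q hg using hex
  have hm : ∀ p, g p ∈ EE T := fun p => (mem_EE T).2 ⟨b p, p.1.1, p.1.2, q p, hg p⟩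
  have hinj : Function.Injective (fun p => (⟨g p, hm p⟩ : {a // a ∈ EE T})) := by
    intro p p' he
    have h1 : g p = g p' := congrArg Subtype.val he
    have h2 := hg p
    rw [h1] at h2
    exact Subtype.ext (pat_uniq hl T h2 (hg p'))
  have h4 := Nat.card_le_card_of_injective _ hinj
  rwa [Nat.card_eq_fintype_card (α := {a // a ∈ EE T}), Fintype.card_coe] at h4

/-- the four faces around a vertex of degree four -/
theorem loc_sum {V : Type} [Fintype V] (T : Tri V) {a n₁ n₂ n₃ n₄ : V} (k1 : T.f a n₁ n₂)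
    (k2 : T.f a n₂ n₃) (k3 : T.f a n₃ n₄) (k4 : T.f a n₄ n₁) (d12 : n₁ ≠ n₂) (d13 : n₁ ≠ n₃)
    (d14 : n₁ ≠ n₄) (d23 : n₂ ≠ n₃) (d24 : n₂ ≠ n₄) (d34 : n₃ ≠ n₄)
    (hn : ∀ v, T.Adj a v ↔ v = n₁ ∨ v = n₂ ∨ v = n₃ ∨ v = n₄) (g : V × V × V → ℕ) :
    (open Classical in ∑ t ∈ FF T with t.1 = a, g t) =
      g (a, n₁, n₂) + g (a, n₂, n₃) + g (a, n₃, n₄) + g (a, n₄, n₁) := by
  classical
  have h : ((FF T).filter fun t => t.1 = a) =
      {(a, n₁, n₂), (a, n₂, n₃), (a, n₃, n₄), (a, n₄, n₁)} := by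
    ext t
    obtain ⟨t1, t2, t3⟩ := t
    rw [mem_filter, mem_FF, mem_insert, mem_insert, mem_insert, mem_singleton]
    constructor
    · rintro ⟨h1, h2⟩
      simp only at h1 h2
      subst h2
      rcases (hn t2).1 ⟨t3, h1⟩ with h | h | h | h
      · subst h
        rw [T.uniq h1 k1]
        exact Or.inl rfl
      · subst h
        rw [T.uniq h1 k2]
        exact Or.inr (Or.inl rfl)
      · subst h
        rw [T.uniq h1 k3]
        exact Or.inr (Or.inr (Or.inl rfl))
      · subst h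
        rw [T.uniq h1 k4]
        exact Or.inr (Or.inr (Or.inr rfl))
    · rintro (h | h | h | h)
      · rw [h]
        exact ⟨k1, rfl⟩
      · rw [h]
        exact ⟨k2, rfl⟩
      · rw [h]
        exact ⟨k3, rfl⟩
      · rw [h]
        exact ⟨k4, rfl⟩
  rw [h, sum_insert, sum_insert, sum_insert, sum_singleton]
  · ring
  · rw [mem_singleton]
    intro h
    simp only [Prod.mk.injEq] at h
    exact d34 h.2.1
  · rw [mem_insert, mem_singleton]
    intro h
    simp only [Prod.mk.injEq] at h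
    rcases h with h | h
    · exact d23 h.2.1
    · exact d24 h.2.1
  · rw [mem_insert, mem_insert, mem_singleton]
    intro h
    simp only [Prod.mk.injEq] at h
    rcases h with h | h | h
    · exact d12 h.2.1
    · exact d13 h.2.1
    · exact d14 h.2.1

theorem loc (hl : LnkStmt) {V : Type} [Fintype V] (T : Tri V)
    (ha : ∀ t n₁ n₂ n₃ n₄, T.deg t = 4 → T.f t n₁ n₂ → T.f t n₂ n₃ → T.f t n₃ n₄ → T.f t n₄ n₁ →
      ¬ (T.deg n₁ = 4 ∧ T.deg n₂ = 4 ∧ T.deg n₃ = 4)) (a : V) :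
    (open Classical in 2 * (if a ∈ EE T then 1 else 0) + ∑ t ∈ FF T with t.1 = a,
        (if cc T t.1 = true ∧ cc T t.2.1 = true ∧ cc T t.2.2 = true then 1 else 0)) ≤
      (open Classical in ∑ t ∈ FF T with t.1 = a,
        (if cc T t.1 = true ∧ cc T t.2.1 = false ∧ cc T t.2.2 = false then 1 else 0)) := by
  classical
  by_cases hA : T.deg a = 4
  · have hcc : cc T a = true := (cc_t T).2 hA
    by_cases hE : a ∈ EE T
    · rw [if_pos hE]
      obtain ⟨b, u, w, p, h1, h2, h3, h4, h5, h6, h7, h8, h9⟩ := (mem_EE T).1 hE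
      obtain ⟨n2, n3, n4, k1, k2, k3, k4, d12, d13, d14, d23, d24, d34, hn⟩ :=
        hl V T a b h1 ⟨w, h8⟩
      have e1 := T.uniq k1 h8
      subst e1
      have e2 := T.uniq k2 h9
      subst e2
      have e3 := T.uniq k3 h6
      subst e3
      rw [loc_sum T k1 k2 k3 k4 d12 d13 d14 d23 d24 d34 hn,
        loc_sum T k1 k2 k3 k4 d12 d13 d14 d23 d24 d34 hn]
      have c1 : cc T b = true := (cc_t T).2 h2
      have c2 : cc T n2 = false := (cc_f T).2 h4
      have c3 : cc T n3 = false := (cc_f T).2 h5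
      have c4 : cc T n4 = false := (cc_f T).2 h3
      simp [hcc, c1, c2, c3, c4]
    · rw [if_neg hE]
      have hne : ∃ n1, T.Adj a n1 := by
        by_contra hcon
        have h1 : T.deg a = 0 := by
          unfold Tri.deg
          have h2 : IsEmpty {v : V // T.Adj a v} := ⟨fun v => hcon ⟨v.1, v.2⟩⟩
          exact Nat.card_of_isEmpty
        lia
      obtain ⟨n1, hn1⟩ := hne
      obtain ⟨n2, n3, n4, k1, k2, k3, k4, d12, d13, d14, d23, d24, d34, hn⟩ :=
        hl V T a n1 hA hn1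
      rw [loc_sum T k1 k2 k3 k4 d12 d13 d14 d23 d24 d34 hn,
        loc_sum T k1 k2 k3 k4 d12 d13 d14 d23 d24 d34 hn]
      have a1 := ha a n1 n2 n3 n4 hA k1 k2 k3 k4
      have a2 := ha a n2 n3 n4 n1 hA k2 k3 k4 k1
      have a3 := ha a n3 n4 n1 n2 hA k3 k4 k1 k2
      have a4 := ha a n4 n1 n2 n3 hA k4 k1 k2 k3
      rw [← cc_t T, ← cc_t T, ← cc_t T] at a1 a2 a3 a4
      cases c1 : cc T n1 <;> cases c2 : cc T n2 <;> cases c3 : cc T n3 <;>
        cases c4 : cc T n4 <;> simp [hcc, c1, c2, c3, c4] at a1 a2 a3 a4 ⊢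
  · have hE : a ∉ EE T := by
      intro h
      obtain ⟨b, u, w, p, h1, _⟩ := (mem_EE T).1 h
      exact hA h1
    rw [if_neg hE]
    have hcc : cc T a = false := (cc_f T).2 hA
    have h0 : ∑ t ∈ FF T with t.1 = a,
        (if cc T t.1 = true ∧ cc T t.2.1 = true ∧ cc T t.2.2 = true then 1 else 0) = 0 := by
      apply Finset.sum_eq_zero
      intro t ht
      rw [mem_filter] at ht
      rw [ht.2, hcc]
      simp
    rw [h0]
    exact Nat.zero_le _

theorem q13 (hl : LnkStmt) {V : Type} [Fintype V] (T : Tri V)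
    (ha : ∀ t n₁ n₂ n₃ n₄, T.deg t = 4 → T.f t n₁ n₂ → T.f t n₂ n₃ → T.f t n₃ n₄ → T.f t n₄ n₁ →
      ¬ (T.deg n₁ = 4 ∧ T.deg n₂ = 4 ∧ T.deg n₃ = 4)) :
    2 * (EE T).card + nn T true true true ≤ nn T true false false := by
  classical
  unfold nn
  rw [← fiber T (fun t => if cc T t.1 = true ∧ cc T t.2.1 = true ∧ cc T t.2.2 = true
    then 1 else 0), ← fiber T (fun t => if cc T t.1 = true ∧ cc T t.2.1 = false ∧
    cc T t.2.2 = false then 1 else 0)]
  have h1 : (EE T).card = ∑ a, (if a ∈ EE T then 1 else 0) := by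
    rw [← card_filter]
    congr 1
    ext a
    rw [mem_filter]
    exact ⟨fun h => ⟨mem_univ _, h⟩, fun h => h.2⟩
  rw [h1, Finset.mul_sum, ← Finset.sum_add_distrib]
  apply Finset.sum_le_sum
  intro a _
  exact loc hl T ha a

theorem cor (hl : Pool.Agent.PDN.LnkStmt) (ha : Pool.Agent.PDM.AlfStmt)
    (hc : Pool.Agent.PDM.CheStmt) : Pool.Agent.PDM.CorStmt := by
  intro V _ T hcon ht h3
  have hex : ∃ v, T.deg v ≠ 4 := by
    by_contra hcon2
    have h1 : IsEmpty {v // T.deg v ≠ 4} := ⟨fun v => hcon2 ⟨v.1, v.2⟩⟩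
    rw [Nat.card_of_isEmpty] at h3
    lia
  have hq13 := q13 hl T (fun t n₁ n₂ n₃ n₄ => ha V T hcon hex t n₁ n₂ n₃ n₄)
  have hord := ord_le hl hc T hcon h3
  have hq2 := q2_le T
  have htot := tot T
  have hdarts := card_darts T
  have hA := sumc T true
  have hH := sumc T false
  have hA2 := sumA T
  have hcV := cardV T
  have hcH := cardH T
  have hP := cardP T
  have r1 := nn_rot T true false false
  have r2 := nn_rot T false false true
  have r3 := nn_rot T true true false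
  have r4 := nn_rot T true false true
  unfold Tri.Tight at ht
  refine ⟨mu T, mu_symm T, ?_, mu_row T, ?_, ?_⟩
  · intro u w h
    obtain ⟨a, b, h1, h2, h4, h5, h6, h7⟩ := mu_pos T h
    refine ⟨h4, h5, ?_⟩
    intro huw
    subst huw
    obtain ⟨n2, n3, n4, k1, k2, k3, k4, d12, d13, _⟩ := hl V T a b h1 ⟨u, h6⟩
    have e1 := T.uniq k1 h6
    subst e1
    have e2 := T.uniq k2 (T.cyc h7)
    exact d13 e2.symm
  · have hH2 : ∑ u, (if T.deg u = 4 then 0 else T.deg u) =
        ∑ v, (if cc T v = false then T.deg v else 0) := by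
      apply Finset.sum_congr rfl
      intro v _
      by_cases h : T.deg v = 4
      · rw [if_pos h, if_neg (fun h' => (cc_f T).1 h' h)]
      · rw [if_neg h, if_pos ((cc_f T).2 h)]
    rw [hH2, mu_sum T]
    lia
  · rw [hP]
    lia

end Pool.Agent.PDM.H56
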